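import Pool.Agent.X49.ET.Top

set_option autoImplicit false

/-!
# Large values of the representation function
-/

namespace Pool.Agent.X49.ET

open Finset Filter

/-- Hamming balls -/
theorem ball_le {p m : ℕ} (v : Fin m → Fin p) (t : ℕ) (x : ℝ) (hx0 : 0 < x) (hx1 : x ≤ 1) :
    ((univ.filter fun w : Fin m → Fin p => (univ.filter fun i => v i ≠ w i).card < t).card : ℝ) *
      x ^ t ≤ (1 + p * x) ^ m := by
  classical
  have h1 : ∀ w : Fin m → Fin p, x ^ (univ.filter fun i => v i ≠ w i).card =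
      ∏ i, (if v i ≠ w i then x else 1) := by
    intro w
    rw [Finset.prod_ite]
    simp
  have h2 : ∑ w : Fin m → Fin p, ∏ i, (if v i ≠ w i then x else 1) =
      ∏ i, ∑ c : Fin p, (if v i ≠ c then x else 1) := by
    rw [Finset.prod_univ_sum]
    rfl
  have h3 : ∀ i, ∑ c : Fin p, (if v i ≠ c then x else 1) ≤ 1 + p * x := by
    intro i
    have e : ∀ c : Fin p, (if v i ≠ c then x else 1) ≤ (if v i = c then 1 else 0) + x := by
      intro c
      by_cases h : v i = c
      · simp [h, hx0.le]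
      · simp [h]
    refine (Finset.sum_le_sum fun c _ => e c).trans ?_
    rw [Finset.sum_add_distrib, Finset.sum_ite_eq]
    simp
  have h4 : ∑ w : Fin m → Fin p, x ^ (univ.filter fun i => v i ≠ w i).card ≤ (1 + p * x) ^ m := by
    simp only [h1]
    rw [h2]
    calc ∏ i, ∑ c : Fin p, (if v i ≠ c then x else 1) ≤ ∏ _i : Fin m, (1 + p * x) :=
          Finset.prod_le_prod (fun i _ => Finset.sum_nonneg fun c _ => by split_ifs <;> positivity)
            fun i _ => h3 i
      _ = _ := by simp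
  refine le_trans ?_ h4
  rw [← nsmul_eq_mul, ← Finset.sum_const]
  refine le_trans (Finset.sum_le_sum (g := fun w => x ^ (univ.filter fun i => v i ≠ w i).card)
    fun w hw => ?_) (Finset.sum_le_sum_of_subset_of_nonneg (Finset.subset_univ _)
      fun w _ _ => by positivity)
  exact pow_le_pow_of_le_one hx0.le hx1 (Finset.mem_filter.1 hw).2.le

/-- the number of elements below `p ^ m` in terms of digit vectors -/
theorem card_digits {p m : ℕ} (A : Set ℕ) [DecidablePred (· ∈ A)] :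
    (univ.filter fun w : Fin m → Fin p => num w ∈ A).card = (A ∩ Set.Iio (p ^ m)).ncard := by
  classical
  have h : (A ∩ Set.Iio (p ^ m)) =
      (((univ.filter fun w : Fin m → Fin p => num w ∈ A).image num : Finset ℕ) : Set ℕ) := by
    ext n
    simp only [Set.mem_inter_iff, Set.mem_Iio, Finset.coe_image, Finset.coe_filter,
      Finset.mem_univ, true_and, Set.mem_image, Set.mem_ofPred_eq]
    constructor
    · rintro ⟨h1, h2⟩
      obtain ⟨v, rfl⟩ := num_surj h2
      exact ⟨v, h1, rfl⟩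
    · rintro ⟨v, hv, rfl⟩
      exact ⟨hv, num_lt v⟩
  rw [h, Set.ncard_coe_finset, Finset.card_image_of_injective _ (fun v w h => num_inj h)]

theorem exists_far {p m : ℕ} (A : Set ℕ) (t : ℕ) (x : ℝ) (hx0 : 0 < x) (hx1 : x ≤ 1)
    (hA : (1 + p * x) ^ m < ((A ∩ Set.Iio (p ^ m)).ncard : ℝ) * x ^ t) :
    ∃ v w : Fin m → Fin p, num v ∈ A ∧ num w ∈ A ∧ t ≤ (univ.filter fun i => v i ≠ w i).card := by
  classical
  rw [← card_digits] at hA
  have hne : (univ.filter fun w : Fin m → Fin p => num w ∈ A).Nonempty := by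
    rw [← Finset.card_pos]
    by_contra h
    have h0 : (univ.filter fun w : Fin m → Fin p => num w ∈ A).card = 0 := by omega
    rw [h0] at hA
    simp only [Nat.cast_zero, zero_mul] at hA
    have : (0 : ℝ) < (1 + p * x) ^ m := by positivity
    linarith
  obtain ⟨v, hv⟩ := hne
  by_contra hcon
  push Not at hcon
  have hsub : (univ.filter fun w : Fin m → Fin p => num w ∈ A) ⊆
      univ.filter fun w : Fin m → Fin p => (univ.filter fun i => v i ≠ w i).card < t := by
    intro w hw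
    exact Finset.mem_filter.2 ⟨Finset.mem_univ _,
      hcon v w (Finset.mem_filter.1 hv).2 (Finset.mem_filter.1 hw).2⟩
  have h1 := ball_le v t x hx0 hx1
  have h2 : ((univ.filter fun w : Fin m → Fin p => num w ∈ A).card : ℝ) ≤
      ((univ.filter fun w : Fin m → Fin p => (univ.filter fun i => v i ≠ w i).card < t).card : ℝ) := by
    exact_mod_cast Finset.card_le_card hsub
  have h3 := mul_le_mul_of_nonneg_right h2 (pow_nonneg hx0.le t)
  linarith

/-- Q1 -/
theorem q1 (A : Set ℕ) (hA : ∀ᶠ n in atTop, 1 ≤ r A n) (p : ℕ) [Fact p.Prime] (ε : ℝ)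
    (hε : 0 < ε)
    (h : ∃ᶠ m : ℕ in atTop, ∃ s D : ℕ, LowDeg p m s D A ∧ (2 * s * D : ℝ) ≤ (1 - ε) * m) :
    ∃ᶠ n : ℕ in atTop, (n : ℝ) ^ ε ≤ r A n := by
  have hp := (Fact.out : p.Prime).two_le
  have hp1 : (1 : ℝ) ≤ p := by exact_mod_cast (by omega : 1 ≤ p)
  obtain ⟨n₀, hn₀⟩ := eventually_atTop.1 hA
  rw [frequently_atTop] at h ⊢
  intro N
  obtain ⟨m, hm, s, D, hlow, hsD⟩ := h (n₀ + N + 1)
  have hlt : m < p ^ m := Nat.lt_pow_self (by omega)
  have hn : n₀ ≤ p ^ m - 1 := by omega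
  refine ⟨p ^ m - 1, by omega, ?_⟩
  have h1 := hn₀ _ hn
  obtain ⟨⟨a, b⟩, ha, hb, hab⟩ : {ab : ℕ × ℕ | ab.1 ∈ A ∧ ab.2 ∈ A ∧
      ab.1 + ab.2 = p ^ m - 1}.Nonempty := by
    apply Set.nonempty_of_ncard_ne_zero
    have : 1 ≤ {ab : ℕ × ℕ | ab.1 ∈ A ∧ ab.2 ∈ A ∧ ab.1 + ab.2 = p ^ m - 1}.ncard := h1
    omega
  have h2 := top_count hlow ha hb hab
  have h3 : ((p : ℝ)) ^ (m - 2 * s * D : ℕ) ≤ r A (p ^ m - 1) := by exact_mod_cast h2
  refine le_trans ?_ h3
  have h4 : (((p ^ m - 1 : ℕ) : ℝ)) ≤ (p : ℝ) ^ m := by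
    have : ((p ^ m - 1 : ℕ) : ℝ) ≤ ((p ^ m : ℕ) : ℝ) := by exact_mod_cast Nat.sub_le _ _
    rwa [Nat.cast_pow] at this
  calc (((p ^ m - 1 : ℕ) : ℝ)) ^ ε ≤ ((p : ℝ) ^ m) ^ ε :=
        Real.rpow_le_rpow (Nat.cast_nonneg _) h4 hε.le
    _ = (p : ℝ) ^ ((m : ℝ) * ε) := by rw [← Real.rpow_natCast, ← Real.rpow_mul (by linarith)]
    _ ≤ (p : ℝ) ^ (((m - 2 * s * D : ℕ) : ℝ)) := by
        apply Real.rpow_le_rpow_of_exponent_le hp1
        have h5 : (m : ℝ) - 2 * s * D ≤ ((m - 2 * s * D : ℕ) : ℝ) := by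
          have : (m : ℝ) ≤ ((m - 2 * s * D + 2 * s * D : ℕ) : ℝ) := by
            exact_mod_cast (by omega : m ≤ m - 2 * s * D + 2 * s * D)
          push_cast at this
          linarith
        linarith
    _ = _ := Real.rpow_natCast _ _

/-- sets with many elements -/
theorem dense (p : ℕ) [Fact p.Prime] (ε : ℝ) (hε : 0 < ε) : ∃ κ : ℝ, 0 < κ ∧ ∀ A : Set ℕ,
    (∃ᶠ m : ℕ in atTop, (p : ℝ) ^ (ε * m) ≤ (A ∩ Set.Iio (p ^ m)).ncard ∧
      ∃ s D : ℕ, LowDeg p m s D A ∧ (s * D : ℝ) ≤ κ * m) →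
    ∃ᶠ n : ℕ in atTop, (n : ℝ) ^ κ ≤ r A n := by
  have hp := (Fact.out : p.Prime).two_le
  have hp2 : (2 : ℝ) ≤ p := by exact_mod_cast hp
  have hlp : 0 < Real.log p := Real.log_pos (by linarith)
  have hl2 : 0 < Real.log 2 := Real.log_pos (by norm_num)
  set L := ε * Real.log p with hL
  have hL0 : 0 < L := by positivity
  obtain ⟨x, hx0, hx1, hxL⟩ : ∃ x : ℝ, 0 < x ∧ x ≤ 1 / 2 ∧ p * x ≤ L / 4 :=
    ⟨min (1 / 2) (L / (4 * p)), by positivity, min_le_left _ _, by
      have := min_le_right (1 / 2) (L / (4 * p))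
      calc (p : ℝ) * min (1 / 2) (L / (4 * p)) ≤ p * (L / (4 * p)) :=
            mul_le_mul_of_nonneg_left this (by positivity)
        _ = L / 4 := by field_simp⟩
  have hlx : 0 < Real.log (1 / x) := Real.log_pos (by rw [lt_div_iff₀ hx0]; linarith)
  obtain ⟨τ, hτ0, hτ1, hτL⟩ : ∃ τ : ℝ, 0 < τ ∧ τ ≤ 1 ∧ τ * Real.log (1 / x) ≤ L / 4 :=
    ⟨min 1 (L / 4 / Real.log (1 / x)), by positivity, min_le_left _ _, by
      have := min_le_right 1 (L / 4 / Real.log (1 / x))
      rw [← le_div_iff₀ hlx]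
      exact this⟩
  obtain ⟨κ, hκ0, hκ1, hκ2⟩ : ∃ κ : ℝ, 0 < κ ∧ κ * (8 * p) ≤ τ ∧
      κ * (4 * Real.log p) ≤ τ * Real.log 2 :=
    ⟨min (τ / (8 * p)) (τ * Real.log 2 / (4 * Real.log p)), by positivity, by
      have := min_le_left (τ / (8 * p)) (τ * Real.log 2 / (4 * Real.log p))
      rwa [le_div_iff₀ (by positivity)] at this, by
      have := min_le_right (τ / (8 * p)) (τ * Real.log 2 / (4 * Real.log p))
      rwa [le_div_iff₀ (by positivity)] at this⟩
  refine ⟨κ, hκ0, fun A h => ?_⟩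
  rw [frequently_atTop] at h ⊢
  intro N
  -- choose `m` large
  have hev : ∀ᶠ m : ℕ in atTop, (4 : ℝ) ≤ τ * m ∧ (N : ℝ) + 2 ≤ (2 : ℝ) ^ (τ * m / 2) := by
    have h1 : Tendsto (fun m : ℕ => τ * (m : ℝ)) atTop atTop :=
      tendsto_natCast_atTop_atTop.const_mul_atTop hτ0
    refine (h1.eventually_ge_atTop 4).and ?_
    have h2 : Tendsto (fun y : ℝ => (2 : ℝ) ^ (y / 2)) atTop atTop :=
      (tendsto_rpow_atTop_of_base_gt_one _ (by norm_num)).comp
        (tendsto_id.atTop_div_const (by norm_num))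
    exact (h2.comp h1).eventually_ge_atTop _
  obtain ⟨m₀, hm₀⟩ := eventually_atTop.1 hev
  obtain ⟨m, hm, hcard, s, D, hlow, hsD⟩ := h (m₀ + 1)
  obtain ⟨hτm, hNm⟩ := hm₀ m (by omega)
  have hm1 : (1 : ℝ) ≤ m := by exact_mod_cast (by omega : 1 ≤ m)
  set t := ⌊τ * m⌋₊ with ht
  have ht1 : (t : ℝ) ≤ τ * m := Nat.floor_le (by positivity)
  have ht2 : τ * m - 1 < t := by
    have := Nat.lt_floor_add_one (τ * m)
    linarith
  obtain ⟨v, w, hv, hw, hvw⟩ := exists_far (p := p) (m := m) A t x hx0 (by linarith) (by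
    have e1 : (1 + p * x) ^ m ≤ Real.exp (L / 4 * m) := by
      have h1 : 1 + p * x ≤ Real.exp (L / 4) := by
        have := Real.add_one_le_exp (L / 4)
        linarith
      calc (1 + p * x) ^ m ≤ Real.exp (L / 4) ^ m := pow_le_pow_left₀ (by positivity) h1 _
        _ = Real.exp (L / 4 * m) := by rw [← Real.exp_nat_mul, mul_comm]
    have e2 : Real.exp (-(L / 4 * m)) ≤ x ^ t := by
      have h1 : x ^ t = Real.exp (-(t * Real.log (1 / x))) := by
        rw [one_div, Real.log_inv, mul_neg, neg_neg, Real.exp_nat_mul, Real.exp_log hx0]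
      rw [h1]
      apply Real.exp_le_exp.2
      have : (t : ℝ) * Real.log (1 / x) ≤ L / 4 * m := by
        calc (t : ℝ) * Real.log (1 / x) ≤ τ * m * Real.log (1 / x) :=
              mul_le_mul_of_nonneg_right ht1 hlx.le
          _ = τ * Real.log (1 / x) * m := by ring
          _ ≤ _ := mul_le_mul_of_nonneg_right hτL (by linarith)
      linarith
    have e3 : (p : ℝ) ^ (ε * m) = Real.exp (L * m) := by
      rw [Real.rpow_def_of_pos (by linarith), hL]
      congr 1
      ring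
    calc (1 + p * x) ^ m ≤ Real.exp (L / 4 * m) := e1
      _ < Real.exp (L * m) * Real.exp (-(L / 4 * m)) := by
          rw [← Real.exp_add]
          apply Real.exp_lt_exp.2
          nlinarith
      _ ≤ Real.exp (L * m) * x ^ t := mul_le_mul_of_nonneg_left e2 (Real.exp_pos _).le
      _ ≤ _ := by
          rw [← e3]
          exact mul_le_mul_of_nonneg_right hcard (by positivity))
  have hr := swap_count hlow v w hv hw t hvw
  -- the exponent
  have hexp : τ * m / 2 ≤ ((t - 2 * (p - 1) * s * D : ℕ) : ℝ) := by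
    have h1 : (t : ℝ) ≤ ((t - 2 * (p - 1) * s * D : ℕ) : ℝ) + ((2 * (p - 1) * s * D : ℕ) : ℝ) := by
      exact_mod_cast (by omega : t ≤ t - 2 * (p - 1) * s * D + 2 * (p - 1) * s * D)
    have h2 : ((2 * (p - 1) * s * D : ℕ) : ℝ) ≤ 2 * p * (s * D) := by
      have : ((2 * (p - 1) * s * D : ℕ) : ℝ) ≤ ((2 * p * (s * D) : ℕ) : ℝ) := by
        have h3 : 2 * (p - 1) * s * D ≤ 2 * p * (s * D) := by
          calc 2 * (p - 1) * s * D = 2 * (p - 1) * (s * D) := by ring
            _ ≤ _ := Nat.mul_le_mul_right _ (by omega)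
        exact_mod_cast h3
      refine this.trans (le_of_eq ?_)
      push_cast
      ring
    have h3 : (2 : ℝ) * p * (s * D) ≤ τ * m / 4 := by
      calc (2 : ℝ) * p * (s * D) ≤ 2 * p * (κ * m) := mul_le_mul_of_nonneg_left hsD (by positivity)
        _ = κ * (8 * p) * m / 4 := by ring
        _ ≤ τ * m / 4 := by
            have := mul_le_mul_of_nonneg_right hκ1 (by linarith : (0 : ℝ) ≤ m)
            linarith
    linarith
  have hr2 : (2 : ℝ) ^ (τ * m / 2) ≤ r A (num v + num w) := by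
    have h1 : ((2 : ℝ)) ^ (t - 2 * (p - 1) * s * D : ℕ) ≤ r A (num v + num w) := by
      exact_mod_cast hr
    refine le_trans ?_ h1
    rw [← Real.rpow_natCast]
    exact Real.rpow_le_rpow_of_exponent_le (by norm_num) hexp
  refine ⟨num v + num w, ?_, ?_⟩
  · have h1 := r_le A (num v + num w)
    have h2 : ((r A (num v + num w) : ℕ) : ℝ) ≤ ((num v + num w + 1 : ℕ) : ℝ) := by exact_mod_cast h1
    have h3 : (N : ℝ) ≤ ((num v + num w : ℕ) : ℝ) := by
      push_cast at h2 ⊢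
      linarith
    exact_mod_cast h3
  · refine le_trans ?_ hr2
    have h1 : ((num v + num w : ℕ) : ℝ) ≤ (p : ℝ) ^ (2 * (m : ℝ)) := by
      have h2 : num v + num w ≤ p ^ (2 * m) := by
        have h3 := num_lt v
        have h4 := num_lt w
        have h5 : 2 * p ^ m ≤ p ^ (2 * m) := by
          rw [two_mul m, pow_add]
          refine Nat.mul_le_mul_right _ ?_
          have hm1' : 1 ≤ m := by exact_mod_cast hm1
          calc 2 ≤ p := hp
            _ = p ^ 1 := (pow_one p).symm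
            _ ≤ p ^ m := Nat.pow_le_pow_right (by omega) hm1'
        omega
      have h3 : ((num v + num w : ℕ) : ℝ) ≤ ((p ^ (2 * m) : ℕ) : ℝ) := by exact_mod_cast h2
      refine h3.trans (le_of_eq ?_)
      rw [Nat.cast_pow, ← Real.rpow_natCast]
      push_cast
      rfl
    calc ((num v + num w : ℕ) : ℝ) ^ κ ≤ ((p : ℝ) ^ (2 * (m : ℝ))) ^ κ :=
          Real.rpow_le_rpow (Nat.cast_nonneg _) h1 hκ0.le
      _ = Real.exp (Real.log p * (2 * m) * κ) := by
          rw [← Real.rpow_mul (by linarith), Real.rpow_def_of_pos (by linarith)]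
          congr 1
          ring
      _ ≤ Real.exp (Real.log 2 * (τ * m / 2)) := by
          apply Real.exp_le_exp.2
          have := mul_le_mul_of_nonneg_right hκ2 (by linarith : (0 : ℝ) ≤ m / 2)
          nlinarith
      _ = _ := by rw [Real.rpow_def_of_pos (by norm_num)]

end Pool.Agent.X49.ET
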