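import Pool.Agent.X49.ET.OrderH

set_option autoImplicit false

/-!
# Bases of order `h` covered by few sets of low degree
-/

namespace Pool.Agent.X49.ET

open Finset Filter

theorem cover (p : ℕ) [Fact p.Prime] (h : ℕ) (hh : 2 ≤ h) (ε : ℝ) (hε : 0 < ε) :
    ∃ κ : ℝ, 0 < κ ∧ ∀ A : Set ℕ, (∀ᶠ n in atTop, 1 ≤ rh A h n) → ∃ m₀ : ℕ, ∀ m : ℕ, m₀ ≤ m →
      ∀ (K : ℕ) (B : Fin K → Set ℕ), (K : ℝ) ≤ (p : ℝ) ^ ((1 / (h : ℝ) - ε) * m) →
      (∀ i, B i ⊆ A) → (∀ i, ∃ s D : ℕ, LowDeg p m s D (B i) ∧ (s * D : ℝ) ≤ κ * m) →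
      (∀ a ∈ A, a < p ^ m → ∃ i, a ∈ B i) →
      ∃ n : ℕ, n ≤ h * p ^ m ∧ (p : ℝ) ^ (κ * m) ≤ rh A h n := by
  classical
  have hp := (Fact.out : p.Prime).two_le
  have hp2 : (2 : ℝ) ≤ p := by exact_mod_cast hp
  have hp0 : (0 : ℝ) < p := by linarith
  obtain ⟨κ, hκ, m₁, -, H⟩ := far p (ε / 2) (by positivity)
  refine ⟨κ, hκ, fun A hA => ?_⟩
  obtain ⟨n₀, hn₀⟩ := eventually_atTop.1 hA
  have hbasis : ∀ n, n₀ ≤ n → ∃ M : Multiset ℕ, M.card = h ∧ (∀ a ∈ M, a ∈ A) ∧ M.sum = n := by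
    intro n hn
    have h1 : {M : Multiset ℕ | M.card = h ∧ (∀ a ∈ M, a ∈ A) ∧ M.sum = n}.Nonempty := by
      apply Set.nonempty_of_ncard_ne_zero
      have : 1 ≤ {M : Multiset ℕ | M.card = h ∧ (∀ a ∈ M, a ∈ A) ∧ M.sum = n}.ncard := hn₀ n hn
      omega
    exact h1
  have hhR : (2 : ℝ) ≤ h := by exact_mod_cast hh
  have hh0 : (0 : ℝ) < h := by linarith
  -- large scale
  have hev : ∀ᶠ m : ℕ in atTop, (n₀ : ℝ) + n₀ ≤ (p : ℝ) ^ (m : ℝ) ∧
      (2 : ℝ) ≤ (p : ℝ) ^ (ε * m / 2) := by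
    have h1 : Tendsto (fun m : ℕ => (p : ℝ) ^ (m : ℝ)) atTop atTop :=
      (tendsto_rpow_atTop_of_base_gt_one _ (by linarith)).comp tendsto_natCast_atTop_atTop
    have h2 : Tendsto (fun m : ℕ => (p : ℝ) ^ (ε * m / 2)) atTop atTop :=
      (tendsto_rpow_atTop_of_base_gt_one _ (by linarith)).comp
        ((tendsto_natCast_atTop_atTop.const_mul_atTop hε).atTop_div_const (by norm_num))
    exact (h1.eventually_ge_atTop _).and (h2.eventually_ge_atTop _)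
  obtain ⟨m₂, hm₂⟩ := eventually_atTop.1 hev
  refine ⟨max m₁ m₂, fun m hm K B hK hBA hB hcov => ?_⟩
  obtain ⟨hb1, hb2⟩ := hm₂ m ((le_max_right _ _).trans hm)
  -- the number of elements of `A`
  set a := (A ∩ Set.Iio (p ^ m)).ncard with ha
  have hcard := basis_card hbasis (p ^ m)
  rw [← ha] at hcard
  have hcardR : (p : ℝ) ^ (m : ℝ) / 2 ≤ (a : ℝ) ^ h := by
    have h1 : ((p ^ m : ℕ) : ℝ) ≤ (n₀ : ℝ) + (a : ℝ) ^ h := by exact_mod_cast hcard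
    rw [Nat.cast_pow, ← Real.rpow_natCast] at h1
    linarith
  have haR : (p : ℝ) ^ ((m : ℝ) / h) / 2 ≤ a := by
    have h1 : ((p : ℝ) ^ ((m : ℝ) / h) / 2) ^ h ≤ (a : ℝ) ^ h := by
      refine le_trans ?_ hcardR
      rw [div_pow]
      have e : ((p : ℝ) ^ ((m : ℝ) / h)) ^ h = (p : ℝ) ^ (m : ℝ) := by
        rw [← Real.rpow_natCast, ← Real.rpow_mul hp0.le]
        congr 1
        field_simp
      rw [e]
      apply div_le_div_of_nonneg_left (by positivity) (by norm_num)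
      calc (2 : ℝ) = 2 ^ 1 := by norm_num
        _ ≤ 2 ^ h := pow_le_pow_right₀ (by norm_num) (by omega)
    exact le_of_pow_le_pow_left₀ (by omega) (Nat.cast_nonneg _) h1
  have hApos : 0 < a := by
    have h1 : (0 : ℝ) < a := lt_of_lt_of_le (by positivity) haR
    exact_mod_cast h1
  -- one of the sets is large
  have hfin : ∀ C : Set ℕ, (C ∩ Set.Iio (p ^ m)).Finite := fun C =>
    (Set.finite_Iio _).subset Set.inter_subset_right
  have hle : (a : ℝ) ≤ ∑ i, ((B i ∩ Set.Iio (p ^ m)).ncard : ℝ) := by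
    have h1 : (hfin A).toFinset ⊆ univ.biUnion fun i => (hfin (B i)).toFinset := by
      intro x hx
      obtain ⟨hx1, hx2⟩ := (Set.Finite.mem_toFinset _).1 hx
      obtain ⟨i, hi⟩ := hcov x hx1 hx2
      exact Finset.mem_biUnion.2 ⟨i, Finset.mem_univ _, (Set.Finite.mem_toFinset _).2 ⟨hi, hx2⟩⟩
    have h2 := (Finset.card_le_card h1).trans Finset.card_biUnion_le
    rw [ha, Set.ncard_eq_toFinset_card _ (hfin A)]
    have h3 : ∑ i, ((B i ∩ Set.Iio (p ^ m)).ncard : ℝ) =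
        ((∑ i, ((hfin (B i)).toFinset).card : ℕ) : ℝ) := by
      push_cast
      refine Finset.sum_congr rfl fun i _ => ?_
      rw [Set.ncard_eq_toFinset_card _ (hfin (B i))]
    rw [h3]
    exact_mod_cast h2
  obtain ⟨i, hi⟩ : ∃ i, (p : ℝ) ^ (ε / 2 * m) ≤ (B i ∩ Set.Iio (p ^ m)).ncard := by
    by_contra hcon
    push Not at hcon
    have h1 : ∑ i, ((B i ∩ Set.Iio (p ^ m)).ncard : ℝ) ≤ K * (p : ℝ) ^ (ε / 2 * m) := by
      calc ∑ i, ((B i ∩ Set.Iio (p ^ m)).ncard : ℝ) ≤ ∑ _i : Fin K, (p : ℝ) ^ (ε / 2 * m) :=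
            Finset.sum_le_sum fun i _ => (hcon i).le
        _ = _ := by simp
    have hK0 : 0 < K := by
      by_contra h0
      have h0' : K = 0 := by omega
      subst h0'
      simp only [Finset.univ_eq_empty, Finset.sum_empty] at hle
      have : (0 : ℝ) < a := by exact_mod_cast hApos
      linarith
    have h1' : ∑ i, ((B i ∩ Set.Iio (p ^ m)).ncard : ℝ) < K * (p : ℝ) ^ (ε / 2 * m) := by
      calc ∑ i, ((B i ∩ Set.Iio (p ^ m)).ncard : ℝ) < ∑ _i : Fin K, (p : ℝ) ^ (ε / 2 * m) :=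
            Finset.sum_lt_sum_of_nonempty ⟨⟨0, hK0⟩, Finset.mem_univ _⟩ fun i _ => hcon i
        _ = _ := by simp
    have h2 : (K : ℝ) * (p : ℝ) ^ (ε / 2 * m) ≤
        (p : ℝ) ^ ((1 / (h : ℝ) - ε) * m) * (p : ℝ) ^ (ε / 2 * m) :=
      mul_le_mul_of_nonneg_right hK (by positivity)
    have h3 : (p : ℝ) ^ ((1 / (h : ℝ) - ε) * m) * (p : ℝ) ^ (ε / 2 * m) * (p : ℝ) ^ (ε * m / 2) =
        (p : ℝ) ^ ((m : ℝ) / h) := by
      rw [← Real.rpow_add hp0, ← Real.rpow_add hp0]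
      congr 1
      ring
    have h4 : (p : ℝ) ^ ((1 / (h : ℝ) - ε) * m) * (p : ℝ) ^ (ε / 2 * m) * 2 ≤
        (p : ℝ) ^ ((m : ℝ) / h) := by
      rw [← h3]
      exact mul_le_mul_of_nonneg_left hb2 (by positivity)
    linarith
  obtain ⟨s, D, hlow, hsD⟩ := hB i
  obtain ⟨x, hx, y, hy, hx1, hy1, hr⟩ := H m ((le_max_left _ _).trans hm) (B i) s D hi hlow hsD
  have h1 := r_le_rh (hBA i) (h := h) (n := x + y) (a := x) hh (hBA i hx)
  refine ⟨x + y + (h - 2) * x, ?_, ?_⟩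
  · have h2 : (h - 2) * x ≤ (h - 2) * p ^ m := Nat.mul_le_mul_left _ hx1.le
    have h3 : h * p ^ m = (h - 2) * p ^ m + 2 * p ^ m := by
      rw [← add_mul]
      congr 1
      omega
    omega
  · have h2 : ((r (B i) (x + y) : ℕ) : ℝ) ≤ 2 * (rh A h (x + y + (h - 2) * x) : ℝ) := by
      exact_mod_cast h1
    linarith

end Pool.Agent.X49.ET
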