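import Pool.Agent.TH17.LD.Core

set_option autoImplicit false

/-!
# Nonzeros of polynomials of low degree on the cube
-/

namespace Pool.Agent.X49.ET

open Finset Pool.Agent.TH17.LD

variable {F : Type} [Field F]

/-- substitution of functions of degree at most one -/
theorem subst_mem {σ τ : Type} [Fintype σ] [Fintype τ] {D : ℕ} {φ : (σ → F) → F}
    (h : φ ∈ P F σ D) (g : (τ → F) → (σ → F)) (hg : ∀ i, (fun y => g y i) ∈ P F τ 1) :
    (fun y => φ (g y)) ∈ P F τ D := by
  induction h using Submodule.span_induction with
  | mem f hf =>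
    obtain ⟨s, hs, rfl⟩ := hf
    have e : (fun y => mono s (g y)) = ∏ i : σ, (fun y : τ → F => g y i) ^ s i := by
      funext y
      simp [mono, Finset.prod_apply]
    rw [e]
    have h1 := prod_mem (univ : Finset σ) (fun i => (fun y : τ → F => g y i) ^ s i) s
      (fun i _ => by
        have := pow_mem (hg i) (s i)
        rwa [mul_one] at this)
    exact P_mono hs h1
  | zero => exact Submodule.zero_mem _
  | add y z _ _ hy hz => exact Submodule.add_mem _ hy hz
  | smul c y _ hy => exact Submodule.smul_mem _ c hy

theorem diff_mem {t d : ℕ} {f : (Fin (t + 1) → F) → F} (h : f ∈ P F (Fin (t + 1)) d) :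
    (fun x : Fin t → F => f (Fin.cons 1 x) - f (Fin.cons 0 x)) ∈ P F (Fin t) (d - 1) := by
  induction h using Submodule.span_induction with
  | mem f hf =>
    obtain ⟨s, hs, rfl⟩ := hf
    rw [Fin.sum_univ_succ] at hs
    by_cases h0 : s 0 = 0
    · have e : (fun x : Fin t → F => mono s (Fin.cons 1 x) - mono s (Fin.cons 0 x)) = 0 := by
        funext x
        simp [mono, Fin.prod_univ_succ, h0]
      rw [e]
      exact Submodule.zero_mem _
    · have e : (fun x : Fin t → F => mono s (Fin.cons 1 x) - mono s (Fin.cons 0 x)) =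
          (mono (fun i => s i.succ) : (Fin t → F) → F) := by
        funext x
        simp [mono, Fin.prod_univ_succ, h0]
      rw [e]
      exact mono_mem (by omega)
  | zero =>
    have e : (fun x : Fin t → F => (0 : (Fin (t + 1) → F) → F) (Fin.cons 1 x) -
        (0 : (Fin (t + 1) → F) → F) (Fin.cons 0 x)) = 0 := by
      funext x; simp
    rw [e]
    exact Submodule.zero_mem _
  | add y z _ _ hy hz =>
    have e : (fun x : Fin t → F => (y + z) (Fin.cons 1 x) - (y + z) (Fin.cons 0 x)) =
        (fun x => y (Fin.cons 1 x) - y (Fin.cons 0 x)) +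
          (fun x => z (Fin.cons 1 x) - z (Fin.cons 0 x)) := by
      funext x
      simp only [Pi.add_apply]
      ring
    rw [e]
    exact Submodule.add_mem _ hy hz
  | smul c y _ hy =>
    have e : (fun x : Fin t → F => (c • y) (Fin.cons 1 x) - (c • y) (Fin.cons 0 x)) =
        c • (fun x => y (Fin.cons 1 x) - y (Fin.cons 0 x)) := by
      funext x
      simp only [Pi.smul_apply, smul_eq_mul]
      ring
    rw [e]
    exact Submodule.smul_mem _ c hy

/-- points of the cube -/
def cube {t : ℕ} (e : Fin t → Bool) : Fin t → F := fun i => if e i then 1 else 0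

theorem cube_cons {t : ℕ} (b : Bool) (e : Fin t → Bool) :
    (cube (Fin.cons b e : Fin (t + 1) → Bool) : Fin (t + 1) → F) =
      Fin.cons (if b then 1 else 0) (cube e) := by
  funext i
  refine Fin.cases ?_ (fun i => ?_) i
  · simp [cube]
  · simp [cube]

theorem card_cube_succ {t : ℕ} (Q : (Fin (t + 1) → Bool) → Prop) [DecidablePred Q] :
    (univ.filter Q).card = (univ.filter fun e : Fin t → Bool => Q (Fin.cons false e)).card +
      (univ.filter fun e : Fin t → Bool => Q (Fin.cons true e)).card := by
  classical
  let c : Bool → (Fin t → Bool) ↪ (Fin (t + 1) → Bool) := fun b =>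
    ⟨fun e => Fin.cons b e, fun e e' h => by
      funext i
      have := congrFun h i.succ
      simpa using this⟩
  have hdisj : Disjoint ((univ.filter fun e : Fin t → Bool => Q (Fin.cons false e)).map (c false))
      ((univ.filter fun e : Fin t → Bool => Q (Fin.cons true e)).map (c true)) := by
    rw [Finset.disjoint_left]
    intro x hx hy
    obtain ⟨y, -, rfl⟩ := Finset.mem_map.1 hx
    obtain ⟨z, -, h⟩ := Finset.mem_map.1 hy
    have := congrFun h 0
    simp [c] at this
  rw [← Finset.card_map (c false), ← Finset.card_map (c true), ← Finset.card_union_of_disjoint hdisj]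
  congr 1
  ext x
  simp only [Finset.mem_filter, Finset.mem_univ, true_and, Finset.mem_union, Finset.mem_map]
  have hx : Fin.cons (x 0) (Fin.tail x) = x := Fin.cons_self_tail x
  constructor
  · intro h
    rcases hb : x 0 with _ | _
    · left
      refine ⟨Fin.tail x, ?_, ?_⟩
      · rw [← hb, hx]; exact h
      · change Fin.cons false (Fin.tail x) = x
        rw [← hb, hx]
    · right
      refine ⟨Fin.tail x, ?_, ?_⟩
      · rw [← hb, hx]; exact h
      · change Fin.cons true (Fin.tail x) = x
        rw [← hb, hx]
  · rintro (⟨y, hy, rfl⟩ | ⟨y, hy, rfl⟩)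
    · exact hy
    · exact hy

/-- a function of degree `d` that does not vanish on the cube has `2 ^ (t - d)` nonzeros there -/
theorem cube_nonzeros [DecidableEq F] : ∀ (t d : ℕ) (f : (Fin t → F) → F), f ∈ P F (Fin t) d →
    (∃ e, f (cube e) ≠ 0) → 2 ^ (t - d) ≤ (univ.filter fun e : Fin t → Bool => f (cube e) ≠ 0).card := by
  intro t
  induction t with
  | zero =>
    intro d f _ ⟨e, he⟩
    rw [Nat.zero_sub, pow_zero]
    exact Finset.card_pos.2 ⟨e, Finset.mem_filter.2 ⟨Finset.mem_univ _, he⟩⟩
  | succ t ih =>
    intro d f hf hne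
    rw [card_cube_succ]
    simp only [cube_cons, if_true, Bool.false_eq_true, if_false]
    have h0 : (fun x : Fin t → F => f (Fin.cons 0 x)) ∈ P F (Fin t) d := cons_mem hf 0
    have h1 : (fun x : Fin t → F => f (Fin.cons 1 x)) ∈ P F (Fin t) d := cons_mem hf 1
    have hd := diff_mem hf
    by_cases e0 : ∃ e : Fin t → Bool, f (Fin.cons 0 (cube e)) ≠ 0
    · by_cases e1 : ∃ e : Fin t → Bool, f (Fin.cons 1 (cube e)) ≠ 0
      · have i0 := ih d _ h0 e0
        have i1 := ih d _ h1 e1
        have : 2 ^ (t + 1 - d) ≤ 2 ^ (t - d) + 2 ^ (t - d) := by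
          rw [← two_mul, ← pow_succ']
          exact Nat.pow_le_pow_right (by norm_num) (by omega)
        omega
      · push Not at e1
        have hd0 : d ≠ 0 := by
          rintro rfl
          obtain ⟨e, he⟩ := e0
          exact he ((P_zero hf _ _).trans (e1 e))
        have i2 := ih (d - 1) _ hd (by
          obtain ⟨e, he⟩ := e0
          exact ⟨e, by rw [e1 e]; simpa using he⟩)
        have i3 : (univ.filter fun e : Fin t → Bool =>
            f (Fin.cons 1 (cube e)) - f (Fin.cons 0 (cube e)) ≠ 0) =
            univ.filter fun e : Fin t → Bool => f (Fin.cons 0 (cube e)) ≠ 0 := by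
          ext e
          simp [e1 e]
        rw [i3] at i2
        have : 2 ^ (t + 1 - d) ≤ 2 ^ (t - (d - 1)) :=
          Nat.pow_le_pow_right (by norm_num) (by omega)
        omega
    · push Not at e0
      have e1 : ∃ e : Fin t → Bool, f (Fin.cons 1 (cube e)) ≠ 0 := by
        obtain ⟨e, he⟩ := hne
        have hx : Fin.cons (e 0) (Fin.tail e) = e := Fin.cons_self_tail e
        rw [← hx, cube_cons] at he
        rcases hb : e 0 with _ | _
        · rw [hb] at he
          simp only [Bool.false_eq_true, if_false] at he
          exact absurd (e0 _) he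
        · rw [hb] at he
          simp only [if_true] at he
          exact ⟨_, he⟩
      have hd0 : d ≠ 0 := by
        rintro rfl
        obtain ⟨e, he⟩ := e1
        exact he ((P_zero hf _ _).trans (e0 e))
      have i2 := ih (d - 1) _ hd (by
        obtain ⟨e, he⟩ := e1
        exact ⟨e, by rw [e0 e]; simpa using he⟩)
      have i3 : (univ.filter fun e : Fin t → Bool =>
          f (Fin.cons 1 (cube e)) - f (Fin.cons 0 (cube e)) ≠ 0) =
          univ.filter fun e : Fin t → Bool => f (Fin.cons 1 (cube e)) ≠ 0 := by
        ext e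
        simp [e0 e]
      rw [i3] at i2
      have : 2 ^ (t + 1 - d) ≤ 2 ^ (t - (d - 1)) :=
        Nat.pow_le_pow_right (by norm_num) (by omega)
      omega

end Pool.Agent.X49.ET
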