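import Pool.Agent.X49.ET.Asym

set_option autoImplicit false

/-!
# Bases of order `h`
-/

namespace Pool.Agent.X49.ET

open Finset Filter

/-- the number of unordered representations of `n` as a sum of `h` elements of `A` -/
noncomputable def rh (A : Set ℕ) (h n : ℕ) : ℕ :=
  {M : Multiset ℕ | M.card = h ∧ (∀ a ∈ M, a ∈ A) ∧ M.sum = n}.ncard

theorem rh_finite (A : Set ℕ) (h n : ℕ) :
    {M : Multiset ℕ | M.card = h ∧ (∀ a ∈ M, a ∈ A) ∧ M.sum = n}.Finite := by
  classical
  refine (Set.finite_Iic (h • Multiset.range (n + 1))).subset ?_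
  rintro M ⟨h1, -, h2⟩
  rw [Set.mem_Iic, Multiset.le_iff_count]
  intro a
  by_cases ha : a ∈ M
  · have h3 : a ≤ n := by
      rw [← h2]
      exact Multiset.single_le_sum (fun _ _ => Nat.zero_le _) a ha
    rw [Multiset.count_nsmul, Multiset.count_eq_one_of_mem (Multiset.nodup_range _)
      (Multiset.mem_range.2 (by omega)), mul_one, ← h1]
    exact Multiset.count_le_card _ _
  · rw [Multiset.count_eq_zero_of_notMem ha]
    exact Nat.zero_le _

theorem r_le_rh {A B : Set ℕ} (hBA : B ⊆ A) {h n a : ℕ} (hh : 2 ≤ h) (ha : a ∈ A) :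
    r B n ≤ 2 * rh A h (n + (h - 2) * a) := by
  classical
  let S : Finset (ℕ × ℕ) := (r_finite B n).toFinset
  let T : Finset (Multiset ℕ) := (rh_finite A h (n + (h - 2) * a)).toFinset
  have hS : r B n = S.card := by
    unfold r
    rw [Set.ncard_eq_toFinset_card _ (r_finite B n)]
  have hT : rh A h (n + (h - 2) * a) = T.card := by
    unfold rh
    rw [Set.ncard_eq_toFinset_card _ (rh_finite A h (n + (h - 2) * a))]
  let g : ℕ × ℕ → Multiset ℕ := fun x => x.1 ::ₘ x.2 ::ₘ Multiset.replicate (h - 2) a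
  have hmaps : ∀ x ∈ S, g x ∈ T := by
    intro x hx
    obtain ⟨h1, h2, h3⟩ := (Set.Finite.mem_toFinset _).1 hx
    refine (Set.Finite.mem_toFinset _).2 ⟨?_, ?_, ?_⟩
    · simp only [g, Multiset.card_cons, Multiset.card_replicate]
      omega
    · intro b hb
      simp only [g, Multiset.mem_cons] at hb
      rcases hb with rfl | rfl | hb
      · exact hBA h1
      · exact hBA h2
      · rw [Multiset.eq_of_mem_replicate hb]
        exact ha
    · simp only [g, Multiset.sum_cons, Multiset.sum_replicate, smul_eq_mul]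
      omega
  rw [hS, hT]
  refine Finset.card_le_mul_card_image_of_maps_to hmaps 2 ?_
  intro M _
  by_cases hne : (S.filter fun x => g x = M).Nonempty
  · obtain ⟨y, hy⟩ := hne
    have hyM := (Finset.mem_filter.1 hy).2
    have hsub : (S.filter fun x => g x = M) ⊆ {y, y.swap} := by
      intro x hx
      have hxM := (Finset.mem_filter.1 hx).2
      have hxn := ((Set.Finite.mem_toFinset _).1 (Finset.mem_filter.1 hx).1).2.2
      have hyn := ((Set.Finite.mem_toFinset _).1 (Finset.mem_filter.1 hy).1).2.2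
      have e : g x = g y := hxM.trans hyM.symm
      have e2 : ({x.1} : Multiset ℕ) + ({x.2} + Multiset.replicate (h - 2) a) =
          {y.1} + ({y.2} + Multiset.replicate (h - 2) a) := e
      rw [← add_assoc, ← add_assoc] at e2
      have e3 := add_right_cancel e2
      have hx1 : x.1 ∈ ({y.1} : Multiset ℕ) + {y.2} := by
        rw [← e3]
        exact Multiset.mem_add.2 (Or.inl (Multiset.mem_singleton_self _))
      rcases Multiset.mem_add.1 hx1 with h4 | h4
      · have h5 := Multiset.mem_singleton.1 h4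
        have h6 : x.2 = y.2 := by omega
        rw [Finset.mem_insert]
        exact Or.inl (Prod.ext h5 h6)
      · have h5 := Multiset.mem_singleton.1 h4
        have h6 : x.2 = y.1 := by omega
        rw [Finset.mem_insert, Finset.mem_singleton]
        exact Or.inr (Prod.ext h5 h6)
    exact (Finset.card_le_card hsub).trans Finset.card_le_two
  · rw [Finset.not_nonempty_iff_eq_empty] at hne
    rw [hne]
    exact Nat.zero_le _

/-- the finite form of the theorem on sets with many elements -/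
theorem far (p : ℕ) [Fact p.Prime] (ε : ℝ) (hε : 0 < ε) : ∃ κ : ℝ, 0 < κ ∧ ∃ m₀ : ℕ, 1 ≤ m₀ ∧
    ∀ m : ℕ, m₀ ≤ m → ∀ (B : Set ℕ) (s D : ℕ),
      (p : ℝ) ^ (ε * m) ≤ (B ∩ Set.Iio (p ^ m)).ncard → LowDeg p m s D B →
      (s * D : ℝ) ≤ κ * m → ∃ a ∈ B, ∃ b ∈ B, a < p ^ m ∧ b < p ^ m ∧
        2 * (p : ℝ) ^ (κ * m) ≤ r B (a + b) := by
  have hp := (Fact.out : p.Prime).two_le
  have hp2 : (2 : ℝ) ≤ p := by exact_mod_cast hp
  have hlp : 0 < Real.log p := Real.log_pos (by linarith)
  have hl2 : 0 < Real.log 2 := Real.log_pos (by norm_num)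
  set L := ε * Real.log p with hL
  have hL0 : 0 < L := by positivity
  obtain ⟨x, hx0, hx1, hxL⟩ : ∃ x : ℝ, 0 < x ∧ x ≤ 1 / 2 ∧ p * x ≤ L / 4 :=
    ⟨min (1 / 2) (L / (4 * p)), by positivity, min_le_left _ _, by
      have := min_le_right (1 / 2) (L / (4 * p))
      calc (p : ℝ) * min (1 / 2) (L / (4 * p)) ≤ p * (L / (4 * p)) :=
            mul_le_mul_of_nonneg_left this (by positivity)
        _ = L / 4 := by field_simp⟩
  have hlx : 0 < Real.log (1 / x) := Real.log_pos (by rw [lt_div_iff₀ hx0]; linarith)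
  obtain ⟨τ, hτ0, hτ1, hτL⟩ : ∃ τ : ℝ, 0 < τ ∧ τ ≤ 1 ∧ τ * Real.log (1 / x) ≤ L / 4 :=
    ⟨min 1 (L / 4 / Real.log (1 / x)), by positivity, min_le_left _ _, by
      have := min_le_right 1 (L / 4 / Real.log (1 / x))
      rw [← le_div_iff₀ hlx]
      exact this⟩
  obtain ⟨κ, hκ0, hκ1, hκ2⟩ : ∃ κ : ℝ, 0 < κ ∧ κ * (8 * p) ≤ τ ∧
      κ * (4 * Real.log p) ≤ τ * Real.log 2 :=
    ⟨min (τ / (8 * p)) (τ * Real.log 2 / (4 * Real.log p)), by positivity, by
      have := min_le_left (τ / (8 * p)) (τ * Real.log 2 / (4 * Real.log p))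
      rwa [le_div_iff₀ (by positivity)] at this, by
      have := min_le_right (τ / (8 * p)) (τ * Real.log 2 / (4 * Real.log p))
      rwa [le_div_iff₀ (by positivity)] at this⟩
  obtain ⟨m₀, hm₀⟩ : ∃ m₀ : ℕ, 4 / τ ≤ m₀ := exists_nat_ge _
  refine ⟨κ, hκ0, m₀ + 1, by omega, fun m hm B s D hcard hlow hsD => ?_⟩
  have hm1 : (1 : ℝ) ≤ m := by exact_mod_cast (by omega : 1 ≤ m)
  have hτm : 4 ≤ τ * m := by
    have h1 : (m₀ : ℝ) ≤ m := by exact_mod_cast (by omega : m₀ ≤ m)
    have h2 : 4 / τ ≤ m := hm₀.trans h1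
    rw [div_le_iff₀ hτ0] at h2
    linarith
  set t := ⌊τ * m⌋₊ with ht
  have ht1 : (t : ℝ) ≤ τ * m := Nat.floor_le (by positivity)
  have ht2 : τ * m - 1 < t := by
    have := Nat.lt_floor_add_one (τ * m)
    linarith
  obtain ⟨v, w, hv, hw, hvw⟩ := exists_far (p := p) (m := m) B t x hx0 (by linarith) (by
    have e1 : (1 + p * x) ^ m ≤ Real.exp (L / 4 * m) := by
      have h1 : 1 + p * x ≤ Real.exp (L / 4) := by
        have := Real.add_one_le_exp (L / 4)
        linarith
      calc (1 + p * x) ^ m ≤ Real.exp (L / 4) ^ m := pow_le_pow_left₀ (by positivity) h1 _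
        _ = Real.exp (L / 4 * m) := by rw [← Real.exp_nat_mul, mul_comm]
    have e2 : Real.exp (-(L / 4 * m)) ≤ x ^ t := by
      have h1 : x ^ t = Real.exp (-(t * Real.log (1 / x))) := by
        rw [one_div, Real.log_inv, mul_neg, neg_neg, Real.exp_nat_mul, Real.exp_log hx0]
      rw [h1]
      apply Real.exp_le_exp.2
      have : (t : ℝ) * Real.log (1 / x) ≤ L / 4 * m := by
        calc (t : ℝ) * Real.log (1 / x) ≤ τ * m * Real.log (1 / x) :=
              mul_le_mul_of_nonneg_right ht1 hlx.le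
          _ = τ * Real.log (1 / x) * m := by ring
          _ ≤ _ := mul_le_mul_of_nonneg_right hτL (by linarith)
      linarith
    have e3 : (p : ℝ) ^ (ε * m) = Real.exp (L * m) := by
      rw [Real.rpow_def_of_pos (by linarith), hL]
      congr 1
      ring
    calc (1 + p * x) ^ m ≤ Real.exp (L / 4 * m) := e1
      _ < Real.exp (L * m) * Real.exp (-(L / 4 * m)) := by
          rw [← Real.exp_add]
          apply Real.exp_lt_exp.2
          nlinarith
      _ ≤ Real.exp (L * m) * x ^ t := mul_le_mul_of_nonneg_left e2 (Real.exp_pos _).le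
      _ ≤ _ := by
          rw [← e3]
          exact mul_le_mul_of_nonneg_right hcard (by positivity))
  have hr := swap_count hlow v w hv hw t hvw
  have hexp : 3 * (τ * m) / 4 - 1 ≤ ((t - 2 * (p - 1) * s * D : ℕ) : ℝ) := by
    have h1 : (t : ℝ) ≤ ((t - 2 * (p - 1) * s * D : ℕ) : ℝ) + ((2 * (p - 1) * s * D : ℕ) : ℝ) := by
      exact_mod_cast (by omega : t ≤ t - 2 * (p - 1) * s * D + 2 * (p - 1) * s * D)
    have h2 : ((2 * (p - 1) * s * D : ℕ) : ℝ) ≤ 2 * p * (s * D) := by
      have : ((2 * (p - 1) * s * D : ℕ) : ℝ) ≤ ((2 * p * (s * D) : ℕ) : ℝ) := by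
        have h3 : 2 * (p - 1) * s * D ≤ 2 * p * (s * D) := by
          calc 2 * (p - 1) * s * D = 2 * (p - 1) * (s * D) := by ring
            _ ≤ _ := Nat.mul_le_mul_right _ (by omega)
        exact_mod_cast h3
      refine this.trans (le_of_eq ?_)
      push_cast
      ring
    have h3 : (2 : ℝ) * p * (s * D) ≤ τ * m / 4 := by
      calc (2 : ℝ) * p * (s * D) ≤ 2 * p * (κ * m) := mul_le_mul_of_nonneg_left hsD (by positivity)
        _ = κ * (8 * p) * m / 4 := by ring
        _ ≤ τ * m / 4 := by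
            have := mul_le_mul_of_nonneg_right hκ1 (by linarith : (0 : ℝ) ≤ m)
            linarith
    linarith
  refine ⟨num v, hv, num w, hw, num_lt v, num_lt w, ?_⟩
  have h1 : ((2 : ℝ)) ^ (t - 2 * (p - 1) * s * D : ℕ) ≤ r B (num v + num w) := by
    exact_mod_cast hr
  refine le_trans ?_ h1
  rw [← Real.rpow_natCast]
  calc 2 * (p : ℝ) ^ (κ * m) = Real.exp (Real.log 2) * Real.exp (Real.log p * (κ * m)) := by
        rw [Real.exp_log (by norm_num), Real.rpow_def_of_pos (by linarith)]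
    _ = Real.exp (Real.log 2 + Real.log p * (κ * m)) := by rw [Real.exp_add]
    _ ≤ Real.exp (Real.log 2 * ((t - 2 * (p - 1) * s * D : ℕ) : ℝ)) := by
        apply Real.exp_le_exp.2
        have h5 := mul_le_mul_of_nonneg_left hexp hl2.le
        have h6 := mul_le_mul_of_nonneg_right hκ2 (by linarith : (0 : ℝ) ≤ m / 4)
        nlinarith
    _ = _ := by rw [Real.rpow_def_of_pos (by norm_num)]

/-- a basis of order `h` has many elements -/
theorem basis_card {A : Set ℕ} {h n₀ : ℕ}
    (hA : ∀ n, n₀ ≤ n → ∃ M : Multiset ℕ, M.card = h ∧ (∀ a ∈ M, a ∈ A) ∧ M.sum = n) (N : ℕ) :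
    N ≤ n₀ + ((A ∩ Set.Iio N).ncard) ^ h := by
  classical
  have hfin : (A ∩ Set.Iio N).Finite := (Set.finite_Iio N).subset Set.inter_subset_right
  let T : Finset ℕ := hfin.toFinset
  have hT : (A ∩ Set.Iio N).ncard = T.card := Set.ncard_eq_toFinset_card _ hfin
  rw [hT]
  have hcov : Finset.Ico n₀ N ⊆ (Finset.univ : Finset (Fin h → T)).image
      (fun v => ∑ i, ((v i : ℕ))) := by
    intro n hn
    rw [Finset.mem_Ico] at hn
    obtain ⟨M, h1, h2, h3⟩ := hA n hn.1
    obtain ⟨l, rfl⟩ := Quot.exists_rep M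
    change l.length = h at h1
    subst h1
    have hmem : ∀ i : Fin l.length, l.get i ∈ T := by
      intro i
      refine (Set.Finite.mem_toFinset _).2 ⟨h2 _ (List.get_mem l i), ?_⟩
      rw [Set.mem_Iio]
      have h4 : l.get i ≤ (Multiset.sum (Quot.mk _ l) : ℕ) :=
        Multiset.single_le_sum (fun _ _ => Nat.zero_le _) _ (List.get_mem l i)
      rw [h3] at h4
      omega
    refine Finset.mem_image.2 ⟨fun i => ⟨l.get i, hmem i⟩, Finset.mem_univ _, ?_⟩
    have h5 : (Multiset.sum (Quot.mk _ l) : ℕ) = l.sum := rfl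
    rw [← h3, h5]
    simp only [List.get_eq_getElem]
    exact (Fin.sum_univ_getElem l).symm ▸ rfl
  have h6 := Finset.card_le_card hcov
  rw [Nat.card_Ico] at h6
  have h7 := h6.trans Finset.card_image_le
  rw [Finset.card_univ, Fintype.card_fun, Fintype.card_fin, Fintype.card_coe] at h7
  omega

end Pool.Agent.X49.ET
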