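import Pool.Agent.X49.ET.Asym

set_option autoImplicit false

/-!
# The second question
-/

namespace Pool.Agent.X49.ET

open Finset Filter

theorem q2 (p : ℕ) [Fact p.Prime] : ∃ κ : ℝ, 0 < κ ∧ ∀ A : Set ℕ, A.Infinite → ∀ C : ℝ,
    (∀ n : ℕ, (Nat.nth (· ∈ A) n : ℝ) ≤ C * ((n : ℝ) + 1) ^ 2) →
    (∃ᶠ m : ℕ in atTop, ∃ s D : ℕ, LowDeg p m s D A ∧ (s * D : ℝ) ≤ κ * m) →
    ∃ᶠ n : ℕ in atTop, (n : ℝ) ^ κ ≤ r A n := by
  classical
  have hp := (Fact.out : p.Prime).two_le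
  have hp2 : (2 : ℝ) ≤ p := by exact_mod_cast hp
  obtain ⟨κ, hκ, H⟩ := dense p (1 / 3) (by norm_num)
  refine ⟨κ, hκ, fun A hA C hC h => H A ?_⟩
  have hev : ∀ᶠ m : ℕ in atTop, (p : ℝ) ^ ((1 / 3 : ℝ) * m) ≤ (A ∩ Set.Iio (p ^ m)).ncard := by
    have h1 : Tendsto (fun m : ℕ => (p : ℝ) ^ ((1 / 3 : ℝ) * m)) atTop atTop :=
      (tendsto_rpow_atTop_of_base_gt_one _ (by linarith)).comp
        (tendsto_natCast_atTop_atTop.const_mul_atTop (by norm_num))
    filter_upwards [h1.eventually_gt_atTop (4 * C), h1.eventually_ge_atTop 1] with m hm hm1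
    set k := (A ∩ Set.Iio (p ^ m)).ncard with hk
    have hcount : Nat.count (· ∈ A) (p ^ m) = k := by
      rw [Nat.count_eq_card_filter_range, hk]
      have : (A ∩ Set.Iio (p ^ m)) = (((range (p ^ m)).filter (· ∈ A) : Finset ℕ) : Set ℕ) := by
        ext n
        simp only [Set.mem_inter_iff, Set.mem_Iio, Finset.coe_filter, Finset.mem_range,
          Set.mem_ofPred_eq]
        tauto
      rw [this, Set.ncard_coe_finset]
    have h2 : p ^ m ≤ Nat.nth (· ∈ A) k := by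
      rw [← hcount]
      exact Nat.le_nth_count hA _
    have h3 : ((p ^ m : ℕ) : ℝ) ≤ C * ((k : ℝ) + 1) ^ 2 :=
      le_trans (by exact_mod_cast h2) (hC k)
    by_contra hcon
    push Not at hcon
    set y := (p : ℝ) ^ ((1 / 3 : ℝ) * m) with hy
    have hy3 : ((p ^ m : ℕ) : ℝ) = y * y * y := by
      rw [hy, ← Real.rpow_add (by linarith), ← Real.rpow_add (by linarith), Nat.cast_pow,
        ← Real.rpow_natCast]
      congr 1
      ring
    have hk0 : (0 : ℝ) ≤ k := Nat.cast_nonneg _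
    have hC0 : 0 ≤ C := by
      by_contra hneg
      push Not at hneg
      have : C * ((k : ℝ) + 1) ^ 2 < 0 := mul_neg_of_neg_of_pos hneg (by positivity)
      have h4 : (0 : ℝ) ≤ ((p ^ m : ℕ) : ℝ) := Nat.cast_nonneg _
      linarith
    have h5 : ((k : ℝ) + 1) ^ 2 ≤ (2 * y) ^ 2 := pow_le_pow_left₀ (by linarith) (by linarith) 2
    have h6 : y * y * y ≤ C * (2 * y) ^ 2 := by
      rw [← hy3]
      exact h3.trans (mul_le_mul_of_nonneg_left h5 hC0)
    have h7 : C * (2 * y) ^ 2 = 4 * C * (y * y) := by ring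
    have h8 : 4 * C * (y * y) < y * (y * y) := mul_lt_mul_of_pos_right hm (by positivity)
    nlinarith
  exact (h.and_eventually hev).mono fun m hm => ⟨hm.2, hm.1⟩

end Pool.Agent.X49.ET
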