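import Pool.Agent.X49.ET.Cube

set_option autoImplicit false

/-!
# Exchanging digits of two summands
-/

namespace Pool.Agent.X49.ET

open Finset Pool.Agent.TH17.LD MvPolynomial

/-- the `m` lowest digits of `n` in base `p`, as elements of the field with `p` elements -/
def dig (p m n : ℕ) : Fin m → ZMod p := fun i => ((n / p ^ (i : ℕ) % p : ℕ) : ZMod p)

/-- `A ∩ [0, p ^ m)` is given by `s` polynomials of degree at most `D` in the digits -/
def LowDeg (p m s D : ℕ) (A : Set ℕ) : Prop :=
  ∃ (f : Fin s → MvPolynomial (Fin m) (ZMod p)) (S : Set (Fin s → ZMod p)),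
    (∀ j, (f j).totalDegree ≤ D) ∧
    ∀ n < p ^ m, (n ∈ A ↔ (fun j => eval (dig p m n) (f j)) ∈ S)

/-- the number of ordered representations -/
noncomputable def r (A : Set ℕ) (n : ℕ) : ℕ :=
  {ab : ℕ × ℕ | ab.1 ∈ A ∧ ab.2 ∈ A ∧ ab.1 + ab.2 = n}.ncard

theorem r_finite (A : Set ℕ) (n : ℕ) :
    {ab : ℕ × ℕ | ab.1 ∈ A ∧ ab.2 ∈ A ∧ ab.1 + ab.2 = n}.Finite := by
  refine (Finset.finite_toSet (antidiagonal n)).subset ?_
  rintro ⟨a, b⟩ ⟨-, -, h⟩
  exact Finset.mem_coe.2 (Finset.HasAntidiagonal.mem_antidiagonal.2 h)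

theorem r_le (A : Set ℕ) (n : ℕ) : r A n ≤ n + 1 := by
  have h : {ab : ℕ × ℕ | ab.1 ∈ A ∧ ab.2 ∈ A ∧ ab.1 + ab.2 = n} ⊆
      ((antidiagonal n : Finset (ℕ × ℕ)) : Set (ℕ × ℕ)) := by
    rintro ⟨a, b⟩ ⟨-, -, h⟩
    exact Finset.mem_coe.2 (Finset.HasAntidiagonal.mem_antidiagonal.2 h)
  refine (Set.ncard_le_ncard h (Finset.finite_toSet _)).trans ?_
  rw [Set.ncard_coe_finset, Finset.Nat.card_antidiagonal]

/-- many pairs give many representations -/
theorem le_r {A : Set ℕ} {n : ℕ} {α : Type} (T : Finset α) (g : α → ℕ × ℕ)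
    (hg : Set.InjOn g T) (h : ∀ a ∈ T, (g a).1 ∈ A ∧ (g a).2 ∈ A ∧ (g a).1 + (g a).2 = n) :
    T.card ≤ r A n := by
  classical
  have h1 : (T.image g : Set (ℕ × ℕ)) ⊆ {ab : ℕ × ℕ | ab.1 ∈ A ∧ ab.2 ∈ A ∧ ab.1 + ab.2 = n} := by
    intro x hx
    obtain ⟨a, ha, rfl⟩ := Finset.mem_image.1 (Finset.mem_coe.1 hx)
    exact h a ha
  have h2 := Set.ncard_le_ncard h1 (r_finite A n)
  rw [Set.ncard_coe_finset, Finset.card_image_of_injOn hg] at h2
  exact h2

/-- the number with the digits `v` -/
def num {p m : ℕ} (v : Fin m → Fin p) : ℕ := ∑ i, (v i : ℕ) * p ^ (i : ℕ)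

theorem num_eq {p m : ℕ} (v : Fin m → Fin p) : num v = (finFunctionFinEquiv v : ℕ) := by
  rw [finFunctionFinEquiv_apply]; rfl

theorem num_lt {p m : ℕ} (v : Fin m → Fin p) : num v < p ^ m := by
  rw [num_eq]; exact (finFunctionFinEquiv v).2

theorem num_inj {p m : ℕ} {v w : Fin m → Fin p} (h : num v = num w) : v = w := by
  rw [num_eq, num_eq] at h
  exact finFunctionFinEquiv.injective (Fin.ext h)

theorem num_surj {p m n : ℕ} (h : n < p ^ m) : ∃ v : Fin m → Fin p, num v = n := by
  refine ⟨finFunctionFinEquiv.symm ⟨n, h⟩, ?_⟩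
  rw [num_eq, Equiv.apply_symm_apply]

theorem digit_num {p m : ℕ} (v : Fin m → Fin p) (i : Fin m) : num v / p ^ (i : ℕ) % p = v i := by
  have h := congrFun (finFunctionFinEquiv.symm_apply_apply v) i
  have h2 := congrArg Fin.val h
  rw [← h2, num_eq]
  rfl

theorem dig_num {p m : ℕ} (v : Fin m → Fin p) : dig p m (num v) = fun i => ((v i : ℕ) : ZMod p) := by
  funext i
  unfold dig
  rw [digit_num]

theorem cast_inj {p : ℕ} {a b : Fin p} (h : ((a : ℕ) : ZMod p) = ((b : ℕ) : ZMod p)) : a = b := by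
  rw [ZMod.natCast_eq_natCast_iff', Nat.mod_eq_of_lt a.2, Nat.mod_eq_of_lt b.2] at h
  exact Fin.ext h

theorem one_sub_pow {p : ℕ} [Fact p.Prime] (a b : ZMod p) :
    1 - (a - b) ^ (p - 1) ≠ 0 ↔ a = b := by
  have hp := (Fact.out : p.Prime).two_le
  constructor
  · intro h
    by_contra hne
    apply h
    rw [ZMod.pow_card_sub_one_eq_one (sub_ne_zero.2 hne), sub_self]
  · rintro rfl
    rw [sub_self, zero_pow (by omega), sub_zero]
    exact one_ne_zero

theorem swap_count {p m s D : ℕ} [Fact p.Prime] {A : Set ℕ} (hA : LowDeg p m s D A)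
    (v w : Fin m → Fin p) (hv : num v ∈ A) (hw : num w ∈ A) (t : ℕ)
    (ht : t ≤ (univ.filter fun i => v i ≠ w i).card) :
    2 ^ (t - 2 * (p - 1) * s * D) ≤ r A (num v + num w) := by
  classical
  obtain ⟨f, S, hf, hS⟩ := hA
  obtain ⟨T, hT, hTt⟩ := Finset.exists_subset_card_eq ht
  let idx : Fin t → Fin m := fun j => ((T.equivFinOfCardEq hTt).symm j : Fin m)
  have hidx : Function.Injective idx := fun i j h =>
    (T.equivFinOfCardEq hTt).symm.injective (Subtype.ext h)
  have hne : ∀ j, v (idx j) ≠ w (idx j) := fun j =>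
    (Finset.mem_filter.1 (hT ((T.equivFinOfCardEq hTt).symm j).2)).2
  let V : Fin m → ZMod p := fun i => ((v i : ℕ) : ZMod p)
  let W : Fin m → ZMod p := fun i => ((w i : ℕ) : ZMod p)
  -- exchange
  let sw : (Fin m → Fin p) → (Fin m → Fin p) → (Fin t → Bool) → (Fin m → Fin p) := fun a b e i =>
    if ∃ j, idx j = i ∧ e j = true then b i else a i
  let aff : (Fin m → ZMod p) → (Fin m → ZMod p) → (Fin t → ZMod p) → (Fin m → ZMod p) :=
    fun a b y i => a i + ∑ j, if idx j = i then (b i - a i) * y j else 0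
  have haff : ∀ a b i, (fun y => aff a b y i) ∈ P (ZMod p) (Fin t) 1 := by
    intro a b i
    refine Submodule.add_mem _ (const_mem _ _) ?_
    have e : (fun y : Fin t → ZMod p => ∑ j, if idx j = i then (b i - a i) * y j else 0) =
        ∑ j, (if idx j = i then (b i - a i) else 0) • (fun y : Fin t → ZMod p => y j) := by
      funext y
      rw [Finset.sum_apply]
      refine Finset.sum_congr rfl fun j _ => ?_
      by_cases h : idx j = i
      · simp [h]
      · simp [h]
    rw [e]
    exact Submodule.sum_mem _ fun j _ => Submodule.smul_mem _ _ (coord_mem j)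
  have hsw : ∀ (a b : Fin m → Fin p) (e : Fin t → Bool),
      aff (fun i => ((a i : ℕ) : ZMod p)) (fun i => ((b i : ℕ) : ZMod p)) (cube e) =
        fun i => ((sw a b e i : ℕ) : ZMod p) := by
    intro a b e
    funext i
    simp only [aff, sw]
    by_cases h : ∃ j, idx j = i ∧ e j = true
    · rw [if_pos h]
      obtain ⟨j, hj, hj'⟩ := h
      rw [Finset.sum_eq_single j]
      · simp [hj, cube, hj']
      · intro j' _ hj''
        rw [if_neg]
        intro h
        exact hj'' (hidx (h.trans hj.symm))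
      · intro h
        exact absurd (Finset.mem_univ _) h
    · rw [if_neg h, Finset.sum_eq_zero, add_zero]
      intro j _
      by_cases hj : idx j = i
      · rw [if_pos hj]
        have : e j = false := by
          by_contra h'
          exact h ⟨j, hj, by simpa using h'⟩
        simp [cube, this]
      · rw [if_neg hj]
  -- the indicator
  let g : (Fin m → ZMod p) → (Fin m → ZMod p) → Fin s → (Fin t → ZMod p) → ZMod p :=
    fun a b j y => 1 - (eval (aff a b y) (f j) - eval a (f j)) ^ (p - 1)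
  have hg : ∀ a b j, g a b j ∈ P (ZMod p) (Fin t) ((p - 1) * D) := by
    intro a b j
    have h1 : (fun y => eval (aff a b y) (f j) - eval a (f j)) ∈ P (ZMod p) (Fin t) D :=
      Submodule.sub_mem _ (subst_mem (P_mono (hf j) (eval_mem (f j))) _ (haff a b)) (const_mem _ _)
    have h2 := pow_mem h1 (p - 1)
    exact Submodule.sub_mem _ (const_mem _ _) h2
  let G : (Fin t → ZMod p) → ZMod p := (∏ j, g V W j) * (∏ j, g W V j)
  have hG : G ∈ P (ZMod p) (Fin t) (2 * (p - 1) * s * D) := by
    have h1 := prod_mem (univ : Finset (Fin s)) (g V W) (fun _ => (p - 1) * D)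
      (fun j _ => hg V W j)
    have h2 := prod_mem (univ : Finset (Fin s)) (g W V) (fun _ => (p - 1) * D)
      (fun j _ => hg W V j)
    have h3 := mul_mem h1 h2
    refine P_mono (le_of_eq ?_) h3
    simp only [Finset.sum_const, Finset.card_univ, Fintype.card_fin, smul_eq_mul]
    ring
  have hG0 : ∀ y, G y ≠ 0 ↔ (∀ j, eval (aff V W y) (f j) = eval V (f j)) ∧
      ∀ j, eval (aff W V y) (f j) = eval W (f j) := by
    intro y
    simp only [G, Pi.mul_apply, Finset.prod_apply, mul_ne_zero_iff, Finset.prod_ne_zero_iff,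
      Finset.mem_univ, true_implies]
    simp only [g, one_sub_pow]
  have haff0 : ∀ a b, aff a b (cube fun _ => false) = a := by
    intro a b
    funext i
    simp [aff, cube]
  have hcount := cube_nonzeros t (2 * (p - 1) * s * D) G hG ⟨fun _ => false, by
    rw [hG0]
    exact ⟨fun j => by rw [haff0], fun j => by rw [haff0]⟩⟩
  refine hcount.trans ?_
  refine le_r _ (fun e => (num (sw v w e), num (sw w v e))) ?_ ?_
  · intro e _ e' _ h
    have h1 := num_inj (Prod.mk.inj h).1
    funext j
    have h2 := congrFun h1 (idx j)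
    simp only [sw] at h2
    have key : ∀ e : Fin t → Bool, (∃ j', idx j' = idx j ∧ e j' = true) ↔ e j = true := by
      intro e
      constructor
      · rintro ⟨j', h3, h4⟩
        rwa [hidx h3] at h4
      · intro h
        exact ⟨j, rfl, h⟩
    simp only [key] at h2
    rcases h3 : e j with _ | _ <;> rcases h4 : e' j with _ | _
    · rfl
    · rw [h3, h4] at h2
      simp only [Bool.false_eq_true, if_false, if_true] at h2
      exact absurd h2 (hne j)
    · rw [h3, h4] at h2
      simp only [Bool.false_eq_true, if_false, if_true] at h2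
      exact absurd h2.symm (hne j)
    · rfl
  · intro e he
    have he' := (hG0 _).1 (Finset.mem_filter.1 he).2
    rw [hsw v w e, hsw w v e] at he'
    refine ⟨?_, ?_, ?_⟩
    · rw [hS _ (num_lt _)]
      have h1 := (hS _ (num_lt v)).1 hv
      rw [dig_num] at h1 ⊢
      have h2 : (fun j => eval (fun i => ((sw v w e i : ℕ) : ZMod p)) (f j)) =
          fun j => eval (fun i => ((v i : ℕ) : ZMod p)) (f j) := by
        funext j
        exact he'.1 j
      rw [h2]
      exact h1
    · rw [hS _ (num_lt _)]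
      have h1 := (hS _ (num_lt w)).1 hw
      rw [dig_num] at h1 ⊢
      have h2 : (fun j => eval (fun i => ((sw w v e i : ℕ) : ZMod p)) (f j)) =
          fun j => eval (fun i => ((w i : ℕ) : ZMod p)) (f j) := by
        funext j
        exact he'.2 j
      rw [h2]
      exact h1
    · simp only [num]
      rw [← Finset.sum_add_distrib, ← Finset.sum_add_distrib]
      refine Finset.sum_congr rfl fun i _ => ?_
      simp only [sw]
      by_cases h : ∃ j, idx j = i ∧ e j = true
      · rw [if_pos h, if_pos h, add_comm]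
      · rw [if_neg h, if_neg h]

end Pool.Agent.X49.ET
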