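import Pool.Agent.X49.ET.Swap

set_option autoImplicit false

/-!
# The representations of `p ^ m - 1`
-/

namespace Pool.Agent.X49.ET

open Finset Pool.Agent.TH17.LD MvPolynomial

theorem geom_top (p : ℕ) (hp : 1 ≤ p) : ∀ m : ℕ,
    ∑ i : Fin m, (p - 1) * p ^ (i : ℕ) = p ^ m - 1 := by
  intro m
  induction m with
  | zero => simp
  | succ m ih =>
    rw [Fin.sum_univ_castSucc]
    simp only [Fin.val_castSucc, Fin.val_last]
    rw [ih, pow_succ]
    have h1 : 1 ≤ p ^ m := Nat.one_le_pow _ _ hp
    obtain ⟨q, rfl⟩ : ∃ q, p = q + 1 := ⟨p - 1, by omega⟩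
    simp only [Nat.add_sub_cancel]
    have : (q + 1) ^ m * (q + 1) = (q + 1) ^ m + q * (q + 1) ^ m := by ring
    rw [this]
    omega

theorem num_rev {p m : ℕ} (hp : 1 ≤ p) (v : Fin m → Fin p) :
    num v + num (fun i => (v i).rev) = p ^ m - 1 := by
  rw [← geom_top p hp m]
  simp only [num]
  rw [← Finset.sum_add_distrib]
  refine Finset.sum_congr rfl fun i _ => ?_
  rw [← add_mul]
  congr 1
  rw [Fin.val_rev]
  have := (v i).2
  omega

theorem cast_rev {p : ℕ} (a : Fin p) : ((a.rev : ℕ) : ZMod p) = -1 - ((a : ℕ) : ZMod p) := by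
  rw [Fin.val_rev]
  have h : p - (a + 1) + (a + 1) = p := by
    have := a.2
    omega
  have h2 := congrArg (fun n : ℕ => (n : ZMod p)) h
  simp only [Nat.cast_add, CharP.cast_eq_zero, Nat.cast_one] at h2
  linear_combination h2

theorem top_count {p m s D : ℕ} [Fact p.Prime] {A : Set ℕ} (hA : LowDeg p m s D A) {a b : ℕ}
    (ha : a ∈ A) (hb : b ∈ A) (hab : a + b = p ^ m - 1) :
    p ^ (m - 2 * s * D) ≤ r A (p ^ m - 1) := by
  classical
  have hp := (Fact.out : p.Prime).two_le
  have hpm : 1 ≤ p ^ m := Nat.one_le_pow _ _ (by omega)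
  obtain ⟨f, S, hf, hS⟩ := hA
  obtain ⟨v, rfl⟩ := num_surj (p := p) (m := m) (n := a) (by omega)
  have hb' : b = num (fun i => (v i).rev) := by
    have := num_rev (by omega) v
    omega
  subst hb'
  let V : Fin m → ZMod p := fun i => ((v i : ℕ) : ZMod p)
  let φ : Fin s × Bool → (Fin m → ZMod p) → ZMod p := fun a x =>
    if a.2 then eval (fun i => -1 - x i) (f a.1) - eval (fun i => -1 - V i) (f a.1)
    else eval x (f a.1) - eval V (f a.1)
  have hφ : ∀ a, φ a ∈ P (ZMod p) (Fin m) D := by
    rintro ⟨j, b⟩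
    rcases b with _ | _
    · exact Submodule.sub_mem _ (P_mono (hf j) (eval_mem (f j))) (const_mem _ _)
    · refine Submodule.sub_mem _ (subst_mem (P_mono (hf j) (eval_mem (f j)))
        (fun x i => -1 - x i) fun i => ?_) (const_mem _ _)
      exact Submodule.sub_mem _ (const_mem _ _) (coord_mem i)
  have hw := warning2 (F := ZMod p) (σ := Fin m) (J := Fin s × Bool) φ (fun _ => D) hφ V (by
    rintro ⟨j, b⟩
    rcases b with _ | _
    · exact sub_self _
    · exact sub_self _)
  rw [Finset.sum_const, Finset.card_univ, Fintype.card_prod, Fintype.card_bool, Fintype.card_fin,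
    smul_eq_mul, ZMod.card, Fintype.card_fin, Nat.card_eq_fintype_card, Fintype.card_subtype] at hw
  rw [show 2 * s * D = s * 2 * D by ring]
  refine hw.trans ?_
  have : NeZero p := ⟨by omega⟩
  let dv : (Fin m → ZMod p) → (Fin m → Fin p) := fun x i => ⟨(x i).val, ZMod.val_lt _⟩
  have hdv : ∀ x, (fun i => ((dv x i : ℕ) : ZMod p)) = x := by
    intro x
    funext i
    simp [dv]
  refine le_r _ (fun x => (num (dv x), num (fun i => (dv x i).rev))) ?_ ?_
  · intro x _ x' _ h
    have h1 := num_inj (Prod.mk.inj h).1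
    rw [← hdv x, ← hdv x', h1]
  · intro x hx
    have hx' := (Finset.mem_filter.1 hx).2
    refine ⟨?_, ?_, num_rev (by omega) _⟩
    · rw [hS _ (num_lt _)]
      have h1 := (hS _ (num_lt v)).1 ha
      rw [dig_num] at h1 ⊢
      rw [hdv]
      have h2 : (fun j => eval x (f j)) = fun j => eval V (f j) := by
        funext j
        have := hx' (j, false)
        simp only [φ, Bool.false_eq_true, if_false] at this
        exact sub_eq_zero.1 this
      rw [h2]
      exact h1
    · rw [hS _ (num_lt _)]
      have h1 := (hS _ (num_lt _)).1 hb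
      rw [dig_num] at h1 ⊢
      simp only [cast_rev] at h1 ⊢
      have h2 : (fun j => eval (fun i => -1 - ((dv x i : ℕ) : ZMod p)) (f j)) =
          fun j => eval (fun i => -1 - V i) (f j) := by
        funext j
        have := hx' (j, true)
        simp only [φ, if_true] at this
        have h3 := congrFun (hdv x)
        simp only [h3]
        exact sub_eq_zero.1 this
      rw [h2]
      exact h1

end Pool.Agent.X49.ET
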